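import Pool.Agent.E8helper58.CM.Basic

/-!
# Cones over chains; deleting a vertex (helper12)
-/

set_option autoImplicit false
set_option linter.unusedSectionVars false

namespace Pool.Agent.E8helper12.CM

open Pool.Agent.W907.SG Pool.Agent.W907.SM Module
open Pool.Agent.TH652.Dual (triv Sph Lv bd_Lv mem_KK_triv exact_of_beta)

/-! ### linear algebra -/

section LA

variable {F E E' : Type} [Field F] [AddCommGroup E] [Module F E] [AddCommGroup E'] [Module F E']
  [FiniteDimensional F E] [FiniteDimensional F E']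

theorem quot_eq (f : E →ₗ[F] E') {B1 Z1 : Submodule F E} {B2 Z2 : Submodule F E'} (h1 : B1 ≤ Z1)
    (h2 : B2 ≤ Z2) (hf : ∀ z ∈ Z1, f z ∈ Z2) (hB : ∀ z ∈ B1, f z ∈ B2)
    (hinj : ∀ z ∈ Z1, f z ∈ B2 → z ∈ B1) (hsurj : ∀ z ∈ Z2, ∃ z1 ∈ Z1, z - f z1 ∈ B2) :
    finrank F Z1 - finrank F B1 = finrank F Z2 - finrank F B2 := by
  have a1 := W721.SG.MID.rn (B2.mkQ.comp f) Z1
  have a2 := W721.SG.MID.rnq_le h2
  have a3 : Z1.map (B2.mkQ.comp f) = Z2.map B2.mkQ := by
    apply le_antisymm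
    · rintro _ ⟨z, hz, rfl⟩
      exact ⟨f z, hf z hz, rfl⟩
    · rintro _ ⟨z, hz, rfl⟩
      obtain ⟨z1, hz1, e⟩ := hsurj z hz
      refine ⟨z1, hz1, ?_⟩
      rw [LinearMap.comp_apply, Submodule.mkQ_apply, Submodule.mkQ_apply]
      exact ((Submodule.Quotient.eq B2).2 e).symm
  have a4 : (Z1 ⊓ LinearMap.ker (B2.mkQ.comp f) : Submodule F E) = B1 := by
    ext z
    constructor
    · rintro ⟨hz, hk⟩
      have hk' : B2.mkQ (f z) = 0 := hk
      rw [Submodule.mkQ_apply, Submodule.Quotient.mk_eq_zero] at hk'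
      exact hinj z hz hk'
    · intro hz
      refine ⟨h1 hz, ?_⟩
      show B2.mkQ (f z) = 0
      rw [Submodule.mkQ_apply, Submodule.Quotient.mk_eq_zero]
      exact hB z hz
  rw [a3, a4] at a1
  omega

end LA

variable {V : Type} [Fintype V] [LinearOrder V] {G : SimpleGraph V}

/-- the cone over a chain -/
def cone (v : V) (y : Finset V → ℝ) : Finset V → ℝ :=
  fun U => if v ∈ U then (sg v (U.erase v) : ℝ) * y (U.erase v) else 0

theorem sgR (v : V) (T : Finset V) : (sg v T : ℝ) * (sg v T : ℝ) = 1 := by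
  exact_mod_cast sg_mul_self v T

theorem Lv_cone {v : V} {y : Finset V → ℝ} (hy : ∀ T, v ∈ T → y T = 0) : Lv v (cone v y) = y := by
  funext R
  by_cases hv : v ∈ R
  · have h1 : Lv v (cone v y) R = 0 := if_pos hv
    rw [h1, hy R hv]
  · have h1 : Lv v (cone v y) R = (sg v R : ℝ) * cone v y (insert v R) := if_neg hv
    have h2 : cone v y (insert v R)
        = (sg v ((insert v R).erase v) : ℝ) * y ((insert v R).erase v) :=
      if_pos (Finset.mem_insert_self v R)
    rw [h1, h2, Finset.erase_insert hv, ← mul_assoc, sgR, one_mul]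

theorem bd_cone {v : V} {y : Finset V → ℝ} (hy : ∀ T, v ∈ T → y T = 0) :
    bd ℝ (cone v y) = y - cone v (bd ℝ y) := by
  funext T
  rw [Pi.sub_apply, bd_apply]
  by_cases hv : v ∈ T
  · have h1 : cone v (bd ℝ y) T = (sg v (T.erase v) : ℝ) * bd ℝ y (T.erase v) := if_pos hv
    rw [h1, hy T hv, zero_sub, bd_apply]
    obtain ⟨R, hR⟩ : ∃ R, R = T.erase v := ⟨_, rfl⟩
    have hvR : v ∉ R := by rw [hR]; exact Finset.notMem_erase v T
    have hT : T = insert v R := by rw [hR, Finset.insert_erase hv]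
    rw [← hR]
    have hv' : v ∈ Rᶜ := by simpa using hvR
    have h2 : Tᶜ = Rᶜ.erase v := by
      rw [hT]
      ext u
      simp
    rw [← Finset.add_sum_erase _ _ hv', hy _ (Finset.mem_insert_self v R), smul_zero, zero_add,
      ← h2, Finset.mul_sum, ← Finset.sum_neg_distrib]
    refine Finset.sum_congr rfl fun u hu => ?_
    have huT : u ∉ T := by simpa using hu
    have huv : u ≠ v := fun e => huT (e ▸ hv)
    have huR : u ∉ R := fun h => huT (hT ▸ Finset.mem_insert_of_mem h)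
    have h3 : cone v y (insert u T)
        = (sg v ((insert u T).erase v) : ℝ) * y ((insert u T).erase v) :=
      if_pos (Finset.mem_insert_of_mem hv)
    have h4 : (insert u T).erase v = insert u R := by
      rw [hR, Finset.erase_insert_of_ne huv]
    rw [h3, h4, zsmul_eq_mul, zsmul_eq_mul]
    have h5 : ((sg u (insert v R) * sg v R : ℤ) : ℝ) = ((-(sg v (insert u R) * sg u R) : ℤ) : ℝ) := by
      rw [sg_swap u v R huv huR hvR]
    rw [← hT] at h5
    push_cast at h5
    have h6 := sgR v R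
    have h7 := sgR v (insert u R)
    have h8 : (sg u T : ℝ) * (sg v (insert u R) : ℝ) = - ((sg v R : ℝ) * (sg u R : ℝ)) := by
      calc (sg u T : ℝ) * (sg v (insert u R) : ℝ)
          = ((sg u T : ℝ) * (sg v R : ℝ)) * (sg v R : ℝ) * (sg v (insert u R) : ℝ) := by
            rw [mul_assoc (sg u T : ℝ), h6, mul_one]
        _ = (-((sg v (insert u R) : ℝ) * (sg u R : ℝ))) * (sg v R : ℝ) * (sg v (insert u R) : ℝ) := by
            rw [h5]
        _ = -((sg v (insert u R) : ℝ) * (sg v (insert u R) : ℝ)) * ((sg v R : ℝ) * (sg u R : ℝ)) := by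
            ring
        _ = - ((sg v R : ℝ) * (sg u R : ℝ)) := by rw [h7]; ring
    calc (sg u T : ℝ) * ((sg v (insert u R) : ℝ) * y (insert u R))
        = ((sg u T : ℝ) * (sg v (insert u R) : ℝ)) * y (insert u R) := by ring
      _ = - ((sg v R : ℝ) * ((sg u R : ℝ) * y (insert u R))) := by rw [h8]; ring
  · have h1 : cone v (bd ℝ y) T = 0 := if_neg hv
    rw [h1, sub_zero, Finset.sum_eq_single v]
    · have h2 : cone v y (insert v T)
          = (sg v ((insert v T).erase v) : ℝ) * y ((insert v T).erase v) :=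
        if_pos (Finset.mem_insert_self v T)
      rw [h2, Finset.erase_insert hv, zsmul_eq_mul, ← mul_assoc, sgR, one_mul]
    · intro u _ huv
      have h2 : cone v y (insert u T) = 0 := by
        refine if_neg ?_
        rw [Finset.mem_insert, not_or]
        exact ⟨fun h => huv h.symm, hv⟩
      rw [h2, smul_zero]
    · intro h
      exact absurd (by simpa using hv) h

theorem zero_of_Lv {v : V} {c : Finset V → ℝ} (h : Lv v c = 0) (T : Finset V) (hT : v ∈ T) : c T = 0 := by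
  have h1 := congrFun h (T.erase v)
  have h2 : Lv v c (T.erase v) = (sg v (T.erase v) : ℝ) * c (insert v (T.erase v)) :=
    if_neg (Finset.notMem_erase v T)
  rw [h2, Finset.insert_erase hT, Pi.zero_apply] at h1
  have h3 := sgR v (T.erase v)
  rcases mul_eq_zero.1 h1 with h4 | h4
  · rw [h4] at h3; norm_num at h3
  · exact h4

theorem Lv_of_zero {v : V} {c : Finset V → ℝ} (h : ∀ T, v ∈ T → c T = 0) : Lv v c = 0 := by
  funext R
  show (if v ∈ R then (0 : ℝ) else (sg v R : ℝ) * c (insert v R)) = 0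
  split_ifs
  · rfl
  · rw [h _ (Finset.mem_insert_self v R), mul_zero]

theorem Lv_zero (v : V) : Lv v (0 : Finset V → ℝ) = 0 := Lv_of_zero fun _ _ => rfl

/-- the link operator as a linear map -/
def LvL (v : V) : (Finset V → ℝ) →ₗ[ℝ] (Finset V → ℝ) where
  toFun := Lv v
  map_add' c d := by
    funext R
    show (if v ∈ R then (0 : ℝ) else (sg v R : ℝ) * (c + d) (insert v R)) =
      (if v ∈ R then (0 : ℝ) else (sg v R : ℝ) * c (insert v R)) +
      (if v ∈ R then (0 : ℝ) else (sg v R : ℝ) * d (insert v R))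
    split_ifs
    · rw [add_zero]
    · rw [Pi.add_apply, mul_add]
  map_smul' a c := by
    funext R
    show (if v ∈ R then (0 : ℝ) else (sg v R : ℝ) * (a • c) (insert v R)) =
      a * (if v ∈ R then (0 : ℝ) else (sg v R : ℝ) * c (insert v R))
    split_ifs
    · rw [mul_zero]
    · rw [Pi.smul_apply, smul_eq_mul]; ring

theorem Lv_add (v : V) (c d : Finset V → ℝ) : Lv v (c + d) = Lv v c + Lv v d := (LvL v).map_add c d

theorem Lv_sub (v : V) (c d : Finset V → ℝ) : Lv v (c - d) = Lv v c - Lv v d := (LvL v).map_sub c d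

variable {A : Set V} {v : V} {i : ℕ}

theorem Lv_KK {c : Finset V → ℝ} (hc : c ∈ KK G (triv V) A ∅ (i + 1)) :
    Lv v c ∈ KK G (triv V) (A ∩ G.neighborSet v) ∅ i := by
  rw [mem_KK_triv] at hc ⊢
  intro R hR
  by_cases hv : v ∈ R
  · exact if_pos hv
  · have e : Lv v c R = (sg v R : ℝ) * c (insert v R) := if_neg hv
    rw [e, hc (insert v R), mul_zero]
    rintro ⟨h3, h4, h5⟩
    refine hR ⟨h3.subset (by simp), ?_, ?_⟩
    · intro r hr
      refine ⟨h4 (by simp [Finset.mem_coe.1 hr]), ?_⟩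
      exact h3 (by simp) (by simp [Finset.mem_coe.1 hr]) (fun e => hv (e ▸ hr))
    · rw [Finset.card_insert_of_notMem hv] at h5
      omega

theorem cone_KK (hv : v ∈ A) {y : Finset V → ℝ}
    (hy : y ∈ KK G (triv V) (A ∩ G.neighborSet v) ∅ i) : cone v y ∈ KK G (triv V) A ∅ (i + 1) := by
  rw [mem_KK_triv] at hy ⊢
  intro U hU
  by_cases hvU : v ∈ U
  · have e : cone v y U = (sg v (U.erase v) : ℝ) * y (U.erase v) := if_pos hvU
    rw [e, hy (U.erase v), mul_zero]
    rintro ⟨h3, h4, h5⟩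
    apply hU
    refine ⟨?_, ?_, ?_⟩
    · intro a ha b hb hab
      by_cases ea : a = v
      · subst ea
        have : b ∈ U.erase a := Finset.mem_erase.2 ⟨fun e => hab e.symm, hb⟩
        exact (h4 (Finset.mem_coe.2 this)).2
      · have ha' : a ∈ U.erase v := Finset.mem_erase.2 ⟨ea, ha⟩
        by_cases eb : b = v
        · subst eb
          exact ((h4 (Finset.mem_coe.2 ha')).2 : G.Adj b a).symm
        · have hb' : b ∈ U.erase v := Finset.mem_erase.2 ⟨eb, hb⟩
          exact h3 (Finset.mem_coe.2 ha') (Finset.mem_coe.2 hb') hab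
    · intro a ha
      by_cases ea : a = v
      · rw [ea]; exact hv
      · exact (h4 (Finset.mem_coe.2 (Finset.mem_erase.2 ⟨ea, ha⟩))).1
    · rw [Finset.card_erase_of_mem hvU] at h5
      have := Finset.card_pos.2 ⟨v, hvU⟩
      omega
  · exact if_neg hvU

theorem KK_mono {A B : Set V} (h : A ⊆ B) {c : Finset V → ℝ} (hc : c ∈ KK G (triv V) A ∅ i) :
    c ∈ KK G (triv V) B ∅ i := by
  rw [mem_KK_triv] at hc ⊢
  intro T hT
  exact hc T fun h1 => hT ⟨h1.1, h1.2.1.trans h, h1.2.2⟩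

theorem KK_zero {c : Finset V → ℝ} (hc : c ∈ KK G (triv V) (A \ {v}) ∅ i) (T : Finset V)
    (hT : v ∈ T) : c T = 0 := by
  rw [mem_KK_triv] at hc
  exact hc T fun h => (h.2.1 (Finset.mem_coe.2 hT)).2 rfl

theorem KK_del {c : Finset V → ℝ} (hc : c ∈ KK G (triv V) A ∅ i) (h : Lv v c = 0) :
    c ∈ KK G (triv V) (A \ {v}) ∅ i := by
  rw [mem_KK_triv] at hc ⊢
  intro T hT
  by_cases hv : v ∈ T
  · exact zero_of_Lv h T hv
  · refine hc T fun h1 => hT ⟨h1.1, ?_, h1.2.2⟩
    intro x hx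
    exact ⟨h1.2.1 hx, fun e => hv (by rw [← (e : x = v)]; exact hx)⟩

theorem link_sub (A : Set V) (v : V) : A ∩ G.neighborSet v ⊆ A \ {v} := by
  rintro x ⟨h1, h2⟩
  refine ⟨h1, ?_⟩
  rintro rfl
  exact G.irrefl h2

theorem mem_ZZ {A : Set V} {i : ℕ} {c : Finset V → ℝ} :
    c ∈ ZZ G (triv V) A ∅ i ↔ c ∈ KK G (triv V) A ∅ i ∧ bd ℝ c = 0 := Iff.rfl

theorem mem_BB {A : Set V} {i : ℕ} {c : Finset V → ℝ} :
    c ∈ BB G (triv V) A ∅ i ↔ ∃ y ∈ KK G (triv V) A ∅ (i + 1), bd ℝ y = c := Iff.rfl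

/-- killing the link of a chain -/
theorem kill (hv : v ∈ A) {z y : Finset V → ℝ} (hz : z ∈ KK G (triv V) A ∅ (i + 1))
    (hy : y ∈ KK G (triv V) (A ∩ G.neighborSet v) ∅ (i + 1)) (e : bd ℝ y = Lv v z) :
    z + bd ℝ (cone v y) ∈ KK G (triv V) (A \ {v}) ∅ (i + 1) := by
  have hy0 : ∀ T, v ∈ T → y T = 0 := KK_zero (KK_mono (link_sub A v) hy)
  refine KK_del (Submodule.add_mem _ hz (bd_mem_KK (cone_KK hv hy))) ?_
  rw [Lv_add]
  have h1 := bd_Lv v (cone v y)
  rw [Lv_cone hy0, e] at h1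
  rw [h1, neg_add_cancel]

end Pool.Agent.E8helper12.CM
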