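import Pool.Agent.E8helper12.CM.Cone

/-!
# Deleting a vertex with acyclic link; DEL and UP (helper12)
-/

set_option autoImplicit false
set_option linter.unusedSectionVars false

namespace Pool.Agent.E8helper12.CM

open Pool.Agent.W907.SG Pool.Agent.W907.SM Module
open Pool.Agent.TH652.Dual (triv Sph Lv bd_Lv mem_KK_triv exact_of_beta)

open Pool.Agent.E8helper58.CM in
theorem t_DEL : S_DEL := by
  intro V _ _ G A v hv hL i
  have hsub : A \ {v} ⊆ A := fun x hx => hx.1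
  unfold beta
  refine quot_eq (LinearMap.id : (Finset V → ℝ) →ₗ[ℝ] (Finset V → ℝ)) (BB_le_ZZ _ _ _ _ _)
    (BB_le_ZZ _ _ _ _ _) ?_ ?_ ?_ ?_
  · rintro z hz
    rw [mem_ZZ] at hz
    exact ⟨KK_mono hsub hz.1, hz.2⟩
  · rintro _ ⟨y, hy, rfl⟩
    exact ⟨y, KK_mono hsub hy, rfl⟩
  · rintro z hz hzB
    rw [mem_ZZ] at hz
    obtain ⟨c, hc, hcz⟩ := hzB
    have hcz' : bd ℝ c = z := hcz
    have h1 : Lv v c ∈ ZZ G (triv V) (A ∩ G.neighborSet v) ∅ i := by
      rw [mem_ZZ]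
      refine ⟨Lv_KK hc, ?_⟩
      rw [bd_Lv, hcz', Lv_of_zero (KK_zero hz.1), neg_zero]
    rw [← exact_of_beta (hL i)] at h1
    obtain ⟨y, hy, e⟩ := h1
    have h2 := kill hv hc hy e
    refine ⟨_, h2, ?_⟩
    rw [map_add, bd_bd, add_zero, hcz']
  · rintro z hz
    rw [mem_ZZ] at hz
    cases i with
    | zero =>
      refine ⟨z, ?_, ?_⟩
      · rw [mem_ZZ]
        refine ⟨?_, hz.2⟩
        refine KK_del hz.1 (Lv_of_zero ?_)
        intro T hT
        have h1 := hz.1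
        rw [mem_KK_triv] at h1
        refine h1 T fun h => ?_
        have h2 := Finset.card_eq_zero.1 h.2.2
        rw [h2] at hT
        exact Finset.notMem_empty v hT
      · rw [LinearMap.id_apply, sub_self]
        exact Submodule.zero_mem _
    | succ j =>
      have h1 : Lv v z ∈ ZZ G (triv V) (A ∩ G.neighborSet v) ∅ j := by
        rw [mem_ZZ]
        refine ⟨Lv_KK hz.1, ?_⟩
        rw [bd_Lv, hz.2, Lv_zero, neg_zero]
      rw [← exact_of_beta (hL j)] at h1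
      obtain ⟨y, hy, e⟩ := h1
      refine ⟨z + bd ℝ (cone v y), ?_, ?_⟩
      · rw [mem_ZZ]
        refine ⟨kill hv hz.1 hy e, ?_⟩
        rw [map_add, bd_bd, add_zero, hz.2]
      · rw [LinearMap.id_apply, sub_add_cancel_left]
        refine Submodule.neg_mem _ ⟨cone v y, cone_KK hv hy, rfl⟩

open Pool.Agent.E8helper58.CM in
theorem t_UP : S_UP := by
  intro V _ _ G A v hv hL i
  have hsub : A \ {v} ⊆ A := fun x hx => hx.1
  symm
  unfold beta
  refine quot_eq (LvL v) (BB_le_ZZ _ _ _ _ _) (BB_le_ZZ _ _ _ _ _) ?_ ?_ ?_ ?_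
  · intro z hz
    rw [mem_ZZ] at hz
    show Lv v z ∈ _
    rw [mem_ZZ]
    refine ⟨Lv_KK hz.1, ?_⟩
    rw [bd_Lv, hz.2, Lv_zero, neg_zero]
  · rintro _ ⟨c, hc, rfl⟩
    show Lv v (bd ℝ c) ∈ _
    have h1 : Lv v (bd ℝ c) = bd ℝ (- Lv v c) := by
      rw [map_neg, bd_Lv, neg_neg]
    rw [h1]
    exact ⟨_, Submodule.neg_mem _ (Lv_KK hc), rfl⟩
  · intro z hz hzB
    rw [mem_ZZ] at hz
    obtain ⟨y, hy, e⟩ := hzB
    have h1 : z + bd ℝ (cone v y) ∈ ZZ G (triv V) (A \ {v}) ∅ (i + 1) := by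
      rw [mem_ZZ]
      refine ⟨kill hv hz.1 hy e, ?_⟩
      rw [map_add, bd_bd, add_zero, hz.2]
    rw [← exact_of_beta (hL (i + 1))] at h1
    obtain ⟨w, hw, e2⟩ := h1
    refine ⟨w - cone v y, Submodule.sub_mem _ (KK_mono hsub hw) (cone_KK hv hy), ?_⟩
    rw [map_sub, e2, add_sub_cancel_right]
  · intro u hu
    rw [mem_ZZ] at hu
    have hu' : u ∈ KK G (triv V) (A \ {v}) ∅ i := KK_mono (link_sub A v) hu.1
    have hu0 : ∀ T, v ∈ T → u T = 0 := KK_zero hu'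
    have h1 : u ∈ ZZ G (triv V) (A \ {v}) ∅ i := ⟨hu', hu.2⟩
    rw [← exact_of_beta (hL i)] at h1
    obtain ⟨w, hw, e⟩ := h1
    refine ⟨cone v u - w, ?_, ?_⟩
    · rw [mem_ZZ]
      refine ⟨Submodule.sub_mem _ (cone_KK hv hu.1) (KK_mono hsub hw), ?_⟩
      rw [map_sub, e, bd_cone hu0, hu.2]
      have h2 : cone v (0 : Finset V → ℝ) = 0 := by
        funext U
        show (if v ∈ U then (sg v (U.erase v) : ℝ) * (0 : ℝ) else 0) = 0
        split_ifs
        · rw [mul_zero]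
        · rfl
      rw [h2, sub_zero, sub_self]
    · show u - Lv v (cone v u - w) ∈ _
      rw [Lv_sub, Lv_cone hu0, Lv_of_zero (KK_zero hw), sub_zero, sub_self]
      exact Submodule.zero_mem _

end Pool.Agent.E8helper12.CM
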